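import Pool.Agent.W209.CF.Basic

/-!
Project CF3, part START: the initial colouring.
-/

set_option autoImplicit false

namespace Pool.Agent.W597.CF3

open Finset Pool.Agent.W209.CF

section
variable {V E : Type} [Fintype V] [DecidableEq V] [Fintype E] [DecidableEq E]
variable {inc : E → Finset V} {s : E → Fin 3}

/-- the initial colouring -/
noncomputable def c0 (D : Data inc s) : E → Fin 3 := by
  classical
  exact fun e => if e ∈ D.X then 1 else if s e ≠ 0 ∧ ∀ u ∈ D.U, e ∉ D.K u then s e else 0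

/-- in some odd component -/
def InB (D : Data inc s) (v : V) : Prop := ∃ u ∈ D.U, v ∈ VK inc (D.K u)

lemma sX (D : Data inc s) {x : E} (hx : x ∈ D.X) : s x = 0 := by
  obtain ⟨w, w', z, h1, -, h2, -⟩ := D.hX x hx
  exact dg_eq_zero.1 h2 x (by rw [h1]; simp)

lemma X_dg (D : Data inc s) {x : E} (hx : x ∈ D.X) {v : V} (hv : v ∈ inc x) : dg inc s v ≠ 1 := by
  obtain ⟨w, w', z, h1, -, h2, h3, h4, -⟩ := D.hX x hx
  rw [h1] at hv
  simp only [mem_insert, mem_singleton] at hv
  rcases hv with rfl | rfl | rfl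
  · rw [h2]; decide
  · rw [h3]; decide
  · rw [h4]; decide

lemma c0_eq (D : Data inc s) {v : V} (hv : ¬ InB D v) {e : E} (he : v ∈ inc e) :
    c0 D e = join (fun e => if e ∈ D.X then 1 else 0) s e := by
  have h1 : ∀ u ∈ D.U, e ∉ D.K u := by
    intro u hu hK
    exact hv ⟨u, hu, mem_VK.2 ⟨e, hK, he⟩⟩
  unfold c0 join
  by_cases hX : e ∈ D.X
  · simp [hX]
  · by_cases h0 : s e = 0
    · simp [hX, h0]
    · simp [hX, h0]
      intro u hu hK
      exact absurd hK (h1 u hu)

lemma cnt1 (D : Data inc s) {v : V} (hv : ¬ InB D v) :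
    cnt inc (c0 D) 1 v = kd inc D.X v + cnt inc s 1 v := by
  rw [cnt_congr (fun e he => c0_eq D hv he) 1, cnt_join _ (by decide)]
  · congr 1
    unfold cnt kd
    congr 1
    ext e
    simp only [mem_filter, mem_univ, true_and]
    by_cases hX : e ∈ D.X <;> simp [hX]
  · intro e _
    by_cases hX : e ∈ D.X
    · right; exact sX D hX
    · left; simp [hX]

lemma cnt2 (D : Data inc s) {v : V} (hv : ¬ InB D v) :
    cnt inc (c0 D) 2 v = cnt inc s 2 v := by
  rw [cnt_congr (fun e he => c0_eq D hv he) 2, cnt_join _ (by decide)]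
  · have : cnt inc (fun e => if e ∈ D.X then (1 : Fin 3) else 0) 2 v = 0 := by
      rw [cnt_eq_zero]
      intro e _
      by_cases hX : e ∈ D.X <;> simp [hX]
    rw [this, zero_add]
  · intro e _
    by_cases hX : e ∈ D.X
    · right; exact sX D hX
    · left; simp [hX]

lemma dgB (D : Data inc s) {v : V} (hv : InB D v) : dg inc (c0 D) v = 0 := by
  obtain ⟨u, hu, hv⟩ := hv
  rw [dg_eq_zero]
  intro e he
  unfold c0
  by_cases hX : e ∈ D.X
  · exfalso
    exact Finset.disjoint_left.1 (D.hKX u hu e hX) he hv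
  · simp only [hX, if_false]
    rw [if_neg]
    rintro ⟨h1, h2⟩
    exact Finset.disjoint_left.1 (D.hKiso u hu e h1 (h2 u hu)) he hv

lemma kdX_zero (D : Data inc s) {v : V} (h : ∀ x ∈ D.X, v ∉ inc x) : kd inc D.X v = 0 := by
  by_contra h0
  obtain ⟨x, hx, hv⟩ := mem_VK.1 (kd_pos.1 h0)
  exact h x hx hv

end

theorem start : S_start := by
  intro V E _ _ _ _ inc _ s D
  refine ⟨c0 D, ⟨empty_subset _, empty_subset _, ?_, ?_, ?_⟩, ?_⟩
  · -- good
    intro v hv
    have hT : v ∉ D.T := fun h => hv (Or.inl ⟨h, notMem_empty v⟩)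
    have hB : ¬ InB D v := by
      rintro ⟨u, hu, h⟩
      exact hv (Or.inr ⟨u, hu, notMem_empty u, h⟩)
    have h1 := cnt1 D hB
    have h2 := cnt2 D hB
    have hs := D.hs v
    unfold Good
    rw [h1, h2]
    rcases Nat.lt_or_ge (dg inc s v) 1 with h | h
    · have h0 : dg inc s v = 0 := by omega
      rcases D.hcov v h0 with hU | hT' | ⟨x, hx, hvx⟩
      · exact absurd ⟨v, hU, D.hKu v hU⟩ hB
      · exact absurd hT' hT
      · left
        have h3 : cnt inc s 1 v = 0 := by unfold dg at h0; omega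
        rw [h3, Nat.add_zero]
        unfold kd
        rw [Finset.card_eq_one]
        refine ⟨x, ?_⟩
        ext y
        simp only [mem_filter, mem_singleton]
        constructor
        · rintro ⟨hy, hvy⟩
          by_contra hne
          have := D.hXd x hx y hy (Ne.symm hne) v hvx hvy
          omega
        · rintro rfl
          exact ⟨hx, hvx⟩
    · rcases Nat.lt_or_ge (dg inc s v) 2 with h' | h'
      · have h3 : dg inc s v = 1 := by omega
        have h4 : kd inc D.X v = 0 := kdX_zero D fun x hx hvx => X_dg D hx hvx h3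
        rw [h4]
        unfold dg at h3
        omega
      · unfold dg at h'
        omega
  · -- zero
    rintro v (⟨hT, -⟩ | ⟨u, hu, -, hv⟩)
    · by_cases hB : InB D v
      · exact dgB D hB
      · have h0 := D.hT0 v hT
        have h4 : kd inc D.X v = 0 := kdX_zero D (D.hUX v (Or.inr hT))
        unfold dg at h0 ⊢
        rw [cnt1 D hB, cnt2 D hB, h4]
        omega
    · exact dgB D ⟨u, hu, hv⟩
  · -- tie
    intro w hw _ h2 hX hU
    have hB : ¬ InB D (D.σ w) := by
      rintro ⟨u, hu, h⟩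
      exact hU u hu (notMem_empty u) h
    have h4 : kd inc D.X (D.σ w) = 0 := kdX_zero D fun x hx hvx => hX ⟨x, hx, hvx⟩
    have := St_two D.hs h2
    rw [cnt1 D hB, cnt2 D hB, h4]
    omega
  · -- Zst
    rintro z hz ⟨x, hx, hzx⟩
    have hB : ¬ InB D z := by
      rintro ⟨u, hu, h⟩
      exact Finset.disjoint_left.1 (D.hKX u hu x hx) hzx h
    have h2 := St_two D.hs hz
    have hk : kd inc D.X z ≠ 0 := kd_pos.2 (mem_VK.2 ⟨x, hx, hzx⟩)
    refine ⟨by rw [cnt1 D hB]; omega, ?_⟩
    obtain ⟨e, he, hse, -⟩ := cnt_eq_one.1 h2.2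
    have hse0 : s e ≠ 0 := by rw [hse]; decide
    have heX : e ∉ D.X := fun h => hse0 (sX D h)
    have hce : c0 D e = 2 := by
      rw [c0_eq D hB he]
      unfold join
      simp [heX, hse]
    refine ⟨e, hce, he, fun v hv hvz => ?_⟩
    have hBv : ¬ InB D v := by
      rintro ⟨u, hu, h⟩
      have heK : e ∉ D.K u := fun hK => hB ⟨u, hu, mem_VK.2 ⟨e, hK, he⟩⟩
      exact Finset.disjoint_left.1 (D.hKiso u hu e hse0 heK) hv h
    have hdv : dg inc s v = 1 := by
      obtain ⟨w, w', z', g1, -, g2, g3, g4, g5⟩ := D.hX x hx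
      have hzz : z = z' := by
        rw [g1] at hzx
        simp only [mem_insert, mem_singleton] at hzx
        rcases hzx with rfl | rfl | rfl
        · omega
        · omega
        · rfl
      subst hzz
      exact g5 e hse0 he v hv hvz
    have hkv : kd inc D.X v = 0 := kdX_zero D fun y hy hvy => X_dg D hy hvy hdv
    have hc2 : 1 ≤ cnt inc s 2 v := cnt_pos.2 ⟨e, hv, hse⟩
    rw [cnt1 D hBv, cnt2 D hBv, hkv]
    unfold dg at hdv
    omega

end Pool.Agent.W597.CF3
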